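import Pool.Agent.H43.PJ.M45
import Pool.Agent.H43.PJ.M47

/-!
# PROJECT PX (MP_967f73_nt): prime + `E_2` with `|x| ≤ n^(1/10)` for almost all `n`: definitions and interface (proof: note 2550)

`L = log N`, `H = Hn θ N = ⌊N^θ⌋`, `1/10 ≤ θ ≤ 1/4`, `y = yN e1 N`, `z = zz y J`, `N^0.1898 ≤ z ≤ N^0.1899`, `w = zz y J1`, `2√N ≤ w ≤ 4√N` (`LevX`),
`om = om y J J1` (primes of `(z, w]` dividing `m`), `nu = nu y J` (primes of `(y, z]`), `rg` (rough numbers).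

* `gX = rg z (1 - om) ≤ 1_P` on `[N/4, 4N]`: the minorant; `gX = rg y (1 - om) - Bx`, `Bx = rg y (1 - om) 1[nu ≥ 1]`;
* `Yx S T = T - S2 S - Bx ≤ gX`, `S2 S m = ∑_{z < p ≤ w, p ∣ m} S(m/p)`, for a sieve pair `T ≤ rg y ≤ S`;
* `YIN θ c`: the interface of the final part: a minorant of the primes which is well distributed in almost all blocks.
-/

set_option autoImplicit false

namespace Pool.Agent.H43.PX

open Finset
open Pool.Agent.H91.PK (ee)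
open Pool.Agent.H91.EHA (Lam lamR)
open Pool.Agent.H43.MP (blk Hn idx Rn)
open Pool.Agent.H43.TP (pr)
open Pool.Agent.H43.TS (badQ)
open Pool.Agent.H76.TP (yN zz rg nu PY Adm)
open Pool.Agent.H91.TQ (om)

/-- the levels -/
def LevX (N y J J1 : ℕ) : Prop := J ≤ J1 ∧ (N : ℝ) ^ (1898 / 10000 : ℝ) ≤ zz y J ∧ (zz y J : ℝ) ≤ (N : ℝ) ^ (1899 / 10000 : ℝ) ∧
  4 * N ≤ zz y J1 ^ 2 ∧ zz y J1 ^ 2 ≤ 16 * N

/-- the minorant of the primes -/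
noncomputable def gX (y J J1 m : ℕ) : ℝ := rg (zz y J) m * (1 - om y J J1 m)

/-- the part with a prime factor in `(y, z]` -/
noncomputable def Bx (y J J1 m : ℕ) : ℝ := if nu y J m = 0 then 0 else rg y m * (1 - om y J J1 m)

/-- `∑_{z < p ≤ w, p ∣ m} S(m/p)` -/
noncomputable def S2 (S : ℕ → ℝ) (y J J1 m : ℕ) : ℝ := ∑ p ∈ (PY (zz y J) (zz y J1)).filter (fun p => p ∣ m), S (m / p)

/-- `∑_{z < p ≤ w} 1/p` -/
noncomputable def W12 (y J J1 : ℕ) : ℝ := ∑ p ∈ PY (zz y J) (zz y J1), 1 / (p : ℝ)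

/-- the lower bound of the minorant -/
noncomputable def Yx (S T : ℕ → ℝ) (y J J1 m : ℕ) : ℝ := T m - S2 S y J J1 m - Bx y J J1 m

/-- the density of `∑_{r ≤ D, r ∣ m} c r` in the class `a` modulo `d` -/
noncomputable def den (D : ℕ) (c : ℕ → ℝ) (d a : ℕ) : ℝ :=
  ∑ r ∈ (Icc 1 D).filter (fun r => Nat.gcd r d ∣ a), c r / (Nat.lcm r d : ℝ)

/-- the interface of the final part -/
def YIN (θ c : ℝ) : Prop := ∃ C : ℕ, ∀ A0 A B : ℕ, ∃ N0 : ℕ, ∀ N : ℕ, N0 ≤ N → ∃ Y g : ℕ → ℝ,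
  (∀ m : ℕ, N ≤ 4 * m → m ≤ 4 * N → Y m ≤ pr m) ∧
  (∀ i ∈ idx N (Hn θ N), c / Real.log N ≤ g i ∧ g i ≤ 1) ∧
  (((idx N (Hn θ N)).filter (fun i => (Hn θ N : ℝ) * Real.log N ^ (C + A0) < ∑ m ∈ blk (Hn θ N) i, Y m ^ 2)).card : ℝ) ≤
    (N : ℝ) / (Hn θ N) / Real.log N ^ A0 ∧
  ((badQ N (Hn θ N) A B Y g).card : ℝ) ≤ (N : ℝ) / (Hn θ N) / Real.log N ^ A

end Pool.Agent.H43.PX
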