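import Pool.Agent.H43.PJ.H91.TL.SvP

/-!
# PX SvX: the sieve pair with the coefficients of both sieves and windows `N^(1/50)`

`SvX_bb`: `sieve_bb` (`H76/TP/SvBB.lean`) with `Adm Q g S`, `Q ≤ N^e4`; `SvX_low`: `sieve_low` (`H91/TQ/SLow.lean`) with the windows `N^(1/50)`; `SvX_lam_abs`: `lam_abs` with the windows `N^(1/50)`;
`SvX_ext`: `Adm Q0 g S` and `Q0 ≤ Q` give `Adm Q g' S`, `g'` = `g` cut at `Q0`.  Then the proof of `sv_pair` (`H91/TL/SvP.lean`) with `e4 = 1/1000` and `h = ⌈N^(1/50)⌉`.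
-/

set_option autoImplicit false

namespace Pool.Agent.H43.PX

open Finset
open Pool.Agent.H91.PK (ee)
open Pool.Agent.H91.EHA (Lam hR lamR ramS)
open Pool.Agent.H53.MID (Fp Bs)
open Pool.Agent.H76.TP
open Pool.Agent.H91.TQ
open Pool.Agent.H91.TL (lam_mean)
open Pool.Agent.H46.TPQ (SvI)

private theorem SvX_mem (w y p : ℕ) (hp : p ∈ PY w y) : w < p ∧ p ≤ y ∧ p.Prime := by
  unfold PY at hp
  rw [mem_filter, mem_Ioc] at hp
  exact ⟨hp.1.1, hp.1.2, hp.2⟩

private theorem SvX_VV_nonneg (T : Finset ℕ) (h : ∀ p ∈ T, 1 ≤ p) : 0 ≤ VV T := by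
  unfold VV
  refine prod_nonneg fun p hp => ?_
  have h1 : (1 : ℝ) ≤ p := by exact_mod_cast h p hp
  have h2 : 1 / (p : ℝ) ≤ 1 := by
    rw [div_le_one (by linarith)]
    exact h1
  linarith only [h2]

private theorem SvX_VV_le (T : Finset ℕ) (h : ∀ p ∈ T, 1 ≤ p) : VV T ≤ 1 := by
  unfold VV
  refine prod_le_one (fun p hp => ?_) fun p hp => ?_
  · have h1 : (1 : ℝ) ≤ p := by exact_mod_cast h p hp
    have h2 : 1 / (p : ℝ) ≤ 1 := by
      rw [div_le_one (by linarith only [h1])]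
      exact h1
    linarith only [h2]
  · have : 0 ≤ 1 / (p : ℝ) := by positivity
    linarith only [this]

private theorem SvX_PW (w : ℕ) : ∀ p ∈ PW w, 1 ≤ p := by
  intro p hp
  unfold PW at hp
  rw [mem_filter, mem_Icc] at hp
  exact hp.1.1

private theorem SvX_PY (w y : ℕ) : ∀ p ∈ PY w y, 1 ≤ p := by
  intro p hp
  have := SvX_mem w y p hp
  omega

private theorem SvX_mul (w y : ℕ) (h : w ≤ y) : VV (PW w) * VV (PY w y) = VV (PW y) := by
  have h1 : PW y = PW w ∪ PY w y := by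
    ext p
    unfold PW PY
    simp only [mem_union, mem_filter, mem_Icc, mem_Ioc]
    constructor
    · rintro ⟨⟨a, b⟩, c⟩
      rcases Nat.lt_or_ge w p with h2 | h2
      · exact Or.inr ⟨⟨h2, b⟩, c⟩
      · exact Or.inl ⟨⟨a, h2⟩, c⟩
    · rintro (⟨⟨a, b⟩, c⟩ | ⟨⟨a, b⟩, c⟩)
      · exact ⟨⟨a, by omega⟩, c⟩
      · exact ⟨⟨by omega, b⟩, c⟩
  have h2 : Disjoint (PW w) (PY w y) := by
    rw [Finset.disjoint_left]
    intro p hp hp2
    have h3 := SvX_mem w y p hp2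
    unfold PW at hp
    rw [mem_filter, mem_Icc] at hp
    omega
  rw [h1]
  unfold VV
  rw [prod_union h2]

private theorem SvX_GD (w y D : ℕ) (hD : 1 ≤ D) : 1 ≤ GD w y D := by
  unfold GD
  have h1 : ∏ p ∈ (∅ : Finset ℕ), (1 / ((p : ℝ) - 1)) = 1 := prod_empty
  rw [← h1]
  refine single_le_sum (f := fun A : Finset ℕ => ∏ p ∈ A, (1 / ((p : ℝ) - 1))) (fun A hA => ?_) ?_
  · rw [mem_filter, mem_powerset] at hA
    refine prod_nonneg fun p hp => ?_
    have h2 : (1 : ℝ) ≤ p := by exact_mod_cast SvX_PY w y p (hA.1 hp)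
    have h3 : (0 : ℝ) ≤ (p : ℝ) - 1 := by linarith only [h2]
    positivity
  · rw [mem_filter, mem_powerset]
    refine ⟨empty_subset _, ?_⟩
    rw [prod_empty]
    exact hD

/-- Selberg's weights -/
private theorem SvX_sel (w y D : ℕ) (hw : 1 ≤ w) (hD : 1 ≤ D) :
    ∃ ρ : Finset ℕ → ℝ, Rho w y D ρ ∧ SF w y ρ = 1 / GD w y D := by
  obtain ⟨ρ, h1, h2, h3, h4⟩ := Pool.Agent.H87T.sel_weights (PY w y) (SvX_PY w y) (fun p => 1 / (p : ℝ))
    (fun p hp => by
      have h5 := SvX_mem w y p hp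
      have h6 : (1 : ℝ) < p := by exact_mod_cast (by omega : 1 < p)
      refine ⟨by positivity, ?_⟩
      rw [div_lt_one (by linarith only [h6])]
      exact h6) D hD
  refine ⟨ρ, ⟨h1, h2, h3⟩, ?_⟩
  have h7 : ∑ A ∈ (PY w y).powerset.filter (fun A => ∏ p ∈ A, p ≤ D), ∏ p ∈ A,
      ((1 / (p : ℝ)) / (1 - 1 / (p : ℝ))) = GD w y D := by
    unfold GD
    refine sum_congr rfl fun A hA => ?_
    rw [mem_filter, mem_powerset] at hA
    refine prod_congr rfl fun p hp => ?_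
    have h5 := SvX_mem w y p (hA.1 hp)
    have h6 : (1 : ℝ) < p := by exact_mod_cast (by omega : 1 < p)
    have h8 : (p : ℝ) ≠ 0 := by linarith only [h6]
    have h9 : (p : ℝ) - 1 ≠ 0 := by linarith only [h6]
    field_simp
  rw [h7] at h4
  have h10 : 0 < GD w y D := lt_of_lt_of_le one_pos (SvX_GD w y D hD)
  rw [eq_div_iff h10.ne']
  exact h4

private theorem SvX_adm (w y r D : ℕ) (ρ : Finset ℕ → ℝ) (hw : 1 ≤ w) (hwy : w ≤ y) (hρ : Rho w y D ρ) :
    Adm (w ^ (2 * r) * D ^ 2) (gS w y r ρ) (SS w y r ρ) := by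
  refine ⟨fun n hn => ?_, fun n => gs_abs w y r D ρ hρ n, fun m hm => ss_exp w y r D ρ hw hwy hρ m hm⟩
  unfold gS
  rw [if_neg]
  rintro ⟨h, -⟩
  exact hn h

/-- `1/GD ≤ VV (PY) (1 + 2t)` -/
private theorem SvX_inv (C : ℝ) (hC : 0 < C) (hg : ∀ w y D : ℕ, 2 ≤ w → w ≤ y → 1 ≤ D →
    1 - C * Real.exp (-(Real.log D / Real.log y)) ≤ VV (PY w y) * GD w y D) (w y D : ℕ) (hw : 2 ≤ w)
    (hwy : w ≤ y) (hD : 1 ≤ D) (t : ℝ) (ht : C * Real.exp (-(Real.log D / Real.log y)) ≤ t) (ht2 : t ≤ 1 / 2) :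
    VV (PW w) * (1 / GD w y D) ≤ VV (PW y) * (1 + 2 * t) := by
  have h1 := hg w y D hw hwy hD
  have h2 : 0 < GD w y D := lt_of_lt_of_le one_pos (SvX_GD w y D hD)
  have ht0 : 0 ≤ t := le_trans (by positivity) ht
  rw [← SvX_mul w y hwy, mul_assoc]
  refine mul_le_mul_of_nonneg_left ?_ (SvX_VV_nonneg _ (SvX_PW w))
  rw [div_le_iff₀ h2]
  have h3 : 1 - t ≤ VV (PY w y) * GD w y D := by linarith only [ht, h1]
  have h4 : (1 - t) * (1 + 2 * t) ≤ VV (PY w y) * GD w y D * (1 + 2 * t) :=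
    mul_le_mul_of_nonneg_right h3 (by linarith only [ht0])
  have h5 : 1 ≤ (1 - t) * (1 + 2 * t) := by nlinarith only [ht2, ht0]
  calc (1 : ℝ) ≤ _ := h5.trans h4
    _ = VV (PY w y) * (1 + 2 * t) * GD w y D := by ring

/-- `(1/e1) exp(-e4/(50 e1))` is small -/
private theorem SvX_small (e4 K δ : ℝ) (he4 : 0 < e4) (hK : 0 < K) (hδ : 0 < δ) :
    ∃ e10 : ℝ, 0 < e10 ∧ ∀ e1 : ℝ, 0 < e1 → e1 ≤ e10 → K / e1 * Real.exp (-(e4 / (50 * e1))) ≤ δ := by
  refine ⟨δ * e4 ^ 2 / (5000 * K), by positivity, fun e1 h0 h1 => ?_⟩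
  have h2 : (e4 / (50 * e1)) ^ 2 / 2 ≤ Real.exp (e4 / (50 * e1)) := by
    have := Real.quadratic_le_exp_of_nonneg (show 0 ≤ e4 / (50 * e1) by positivity)
    have h3 : 0 ≤ e4 / (50 * e1) := by positivity
    linarith only [this, h3]
  rw [Real.exp_neg, ← div_eq_mul_inv, div_div, div_le_iff₀ (by positivity)]
  rw [le_div_iff₀ (by positivity)] at h1
  calc K = K := rfl
    _ ≤ δ * (e1 * ((e4 / (50 * e1)) ^ 2 / 2)) := by
        have h4 : δ * (e1 * ((e4 / (50 * e1)) ^ 2 / 2)) = δ * e4 ^ 2 / (5000 * e1) := by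
          field_simp
          ring
        rw [h4, le_div_iff₀ (by positivity)]
        linarith
    _ ≤ δ * (e1 * Real.exp (e4 / (50 * e1))) := by
        refine mul_le_mul_of_nonneg_left ?_ hδ.le
        exact mul_le_mul_of_nonneg_left h2 h0.le

/-- the mean value -/
private theorem SvX_mean (C C1 C2 : ℝ) (hC : 0 < C) (hC1 : 0 < C1) (hC2 : 0 < C2)
    (hg : ∀ w y D : ℕ, 2 ≤ w → w ≤ y → 1 ≤ D →
      1 - C * Real.exp (-(Real.log D / Real.log y)) ≤ VV (PY w y) * GD w y D)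
    (hv : ∀ n : ℕ, 2 ≤ n → VV (PW n) ≤ C1 / Real.log n)
    (hs : ∀ w y D : ℕ, 2 ≤ w → w ≤ y → y ≤ D →
      ∑ p ∈ PY w y, VV (PW (p - 1)) / p * Real.exp (-(Real.log D / Real.log p)) ≤
        C2 / Real.log y * Real.exp (-(Real.log D / Real.log y)))
    (w y r D x l : ℕ) (hw : 2 ≤ w) (hwy : w ≤ y) (hyD : y ≤ D) (hr : 6 * (1 + Real.log w) ≤ r + 1)
    (hE : C * Real.exp (-(Real.log D / Real.log y)) ≤ 1 / 2) :
    VV (PW w) * (1 / GD w y D) * l ≤ ∑ m ∈ Ioc x (x + l), rg y m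
      + l * (2 * C * (C1 + C2) / Real.log y * Real.exp (-(Real.log D / Real.log y)))
      + 2 * l * (2 + Real.log y) / 2 ^ r + 10 * y * ((w : ℝ) ^ (2 * r) * (D : ℝ) ^ 2) ^ 2
      + ((w : ℝ) + 1) ^ (2 * r + 1) := by
  classical
  have hD : 1 ≤ D := by omega
  have hsel : ∀ p : ℕ, ∃ ρ : Finset ℕ → ℝ, Rho w (p - 1) D ρ ∧ SF w (p - 1) ρ = 1 / GD w (p - 1) D :=
    fun p => SvX_sel w (p - 1) D (by omega) hD
  choose ρ hρ1 hρ2 using hsel
  have hGD : ∀ y' : ℕ, 0 < GD w y' D := fun y' => lt_of_lt_of_le one_pos (SvX_GD w y' D hD)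
  have hb := buc w y r D x l ρ hw hwy hD hr (fun p _ => ⟨hρ1 p, by
    rw [hρ2 p]; exact (div_pos one_pos (hGD _)).le, by
    rw [hρ2 p, div_le_one (hGD _)]; exact SvX_GD w (p - 1) D hD⟩)
  have hlogD : 0 ≤ Real.log D := Real.log_natCast_nonneg D
  have hlogy : 0 < Real.log y := Real.log_pos (by exact_mod_cast (by omega : 1 < y))
  -- the sum over the primes
  have h1 : ∑ p ∈ PY w y, VV (PW w) * SF w (p - 1) (ρ p) / p ≤
      ∑ p ∈ PY w y, VV (PW (p - 1)) / p +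
        2 * C * (C2 / Real.log y * Real.exp (-(Real.log D / Real.log y))) := by
    have h2 : ∀ p ∈ PY w y, VV (PW w) * SF w (p - 1) (ρ p) / p ≤ VV (PW (p - 1)) / p +
        2 * C * (VV (PW (p - 1)) / p * Real.exp (-(Real.log D / Real.log p))) := by
      intro p hp
      obtain ⟨p1, p2, p3⟩ := SvX_mem w y p hp
      have hp0 : (0 : ℝ) < p := by exact_mod_cast (by omega : 0 < p)
      have q1 : 0 < Real.log ((p - 1 : ℕ) : ℝ) := Real.log_pos (by exact_mod_cast (by omega : 1 < p - 1))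
      have q2 : Real.log ((p - 1 : ℕ) : ℝ) ≤ Real.log p :=
        Real.log_le_log (by exact_mod_cast (by omega : 0 < p - 1)) (by exact_mod_cast (by omega))
      have q3 : Real.log p ≤ Real.log y := Real.log_le_log hp0 (by exact_mod_cast p2)
      have q4 : 0 < Real.log (p : ℝ) := by linarith only [q1, q2]
      have q5 : Real.exp (-(Real.log D / Real.log ((p - 1 : ℕ) : ℝ))) ≤ Real.exp (-(Real.log D / Real.log p)) := by
        apply Real.exp_le_exp.2
        have := div_le_div_of_nonneg_left hlogD q1 q2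
        linarith only [this]
      have q6 : Real.exp (-(Real.log D / Real.log p)) ≤ Real.exp (-(Real.log D / Real.log y)) := by
        apply Real.exp_le_exp.2
        have := div_le_div_of_nonneg_left hlogD q4 q3
        linarith only [this]
      have q7 := SvX_inv C hC hg w (p - 1) D hw (by omega) hD (C * Real.exp (-(Real.log D / Real.log p)))
        (mul_le_mul_of_nonneg_left q5 hC.le) ((mul_le_mul_of_nonneg_left q6 hC.le).trans hE)
      rw [hρ2 p]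
      have q8 := div_le_div_of_nonneg_right q7 hp0.le
      refine q8.trans (le_of_eq ?_)
      ring
    refine (sum_le_sum h2).trans ?_
    rw [sum_add_distrib, ← mul_sum]
    have h3 := mul_le_mul_of_nonneg_left (hs w y D hw hwy hyD) (show 0 ≤ 2 * C by positivity)
    linarith only [h3]
  have h4 := vbuch w y hwy
  have h5 : VV (PW w) * (1 / GD w y D) ≤ VV (PW y) +
      2 * C * (C1 / Real.log y * Real.exp (-(Real.log D / Real.log y))) := by
    have q7 := SvX_inv C hC hg w y D hw hwy hD _ le_rfl hE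
    have q8 := mul_le_mul_of_nonneg_right (hv y (by omega))
      (show 0 ≤ 2 * C * Real.exp (-(Real.log D / Real.log y)) by positivity)
    calc _ ≤ _ := q7
      _ = VV (PW y) + VV (PW y) * (2 * C * Real.exp (-(Real.log D / Real.log y))) := by ring
      _ ≤ VV (PW y) + C1 / Real.log y * (2 * C * Real.exp (-(Real.log D / Real.log y))) := by linarith only [q8]
      _ = _ := by ring
  have hl : (0 : ℝ) ≤ l := Nat.cast_nonneg l
  have h6 : VV (PW w) * (1 / GD w y D) * l ≤ l * (VV (PW w) - ∑ p ∈ PY w y, VV (PW w) * SF w (p - 1) (ρ p) / p)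
      + l * (2 * C * (C1 + C2) / Real.log y * Real.exp (-(Real.log D / Real.log y))) := by
    have h7 : VV (PW w) * (1 / GD w y D) ≤ (VV (PW w) - ∑ p ∈ PY w y, VV (PW w) * SF w (p - 1) (ρ p) / p)
        + 2 * C * (C1 + C2) / Real.log y * Real.exp (-(Real.log D / Real.log y)) := by
      have h8 : 2 * C * (C1 + C2) / Real.log y * Real.exp (-(Real.log D / Real.log y)) =
          2 * C * (C1 / Real.log y * Real.exp (-(Real.log D / Real.log y))) +
          2 * C * (C2 / Real.log y * Real.exp (-(Real.log D / Real.log y))) := by ring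
      rw [h8]
      linarith only [h1, h4, h5]
    have h9 := mul_le_mul_of_nonneg_left h7 hl
    calc VV (PW w) * (1 / GD w y D) * l = l * (VV (PW w) * (1 / GD w y D)) := by ring
      _ ≤ _ := h9
      _ = _ := by ring
  linarith only [hb, h6]

/-- `sieve_bb` with the coefficients -/
private theorem SvX_bb (e4 ε : ℝ) (he4 : 0 < e4) (hε : 0 < ε) :
    ∃ e10 : ℝ, 0 < e10 ∧ ∀ e1 : ℝ, 0 < e1 → e1 ≤ e10 → ∃ C : ℕ, ∀ A : ℕ, ∃ B0 : ℕ, ∀ B : ℕ, B0 ≤ B → ∃ N0 : ℕ,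
      ∀ N : ℕ, N0 ≤ N → ∃ (S g : ℕ → ℝ) (kS : ℝ) (Q : ℕ), Adm Q g S ∧ 1 ≤ Q ∧ (Q : ℝ) ≤ (N : ℝ) ^ e4 ∧
        (∀ m, 1 ≤ m → rg (yN e1 N) m ≤ S m) ∧ (∀ m, 0 ≤ S m) ∧ 0 ≤ kS ∧ kS ≤ 1 ∧
        (∀ (H i : ℕ) (α : ℝ), (N : ℝ) ^ e4 ≤ H → 1 ≤ i →
          ‖Bs (fun m => S m - kS * lamR ⌊Real.log N ^ B⌋₊ m) H i α‖ ≤ H / Real.log N ^ A) ∧
        (∀ u w : ℕ, 1 ≤ u → (N : ℝ) ^ e4 ≤ w → ∑ m ∈ Ico u (u + w), S m ^ 2 ≤ w * Real.log N ^ C) ∧
        (∀ x l : ℕ, (N : ℝ) ^ e4 ≤ l →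
          kS * l ≤ ∑ m ∈ Ioc x (x + l), rg (yN e1 N) m + ε * l / Real.log N) := by
  obtain ⟨C, hC, hg⟩ := gup
  obtain ⟨C1, hC1, hv⟩ := vv_le
  obtain ⟨C2, hC2, hs⟩ := vsum
  obtain ⟨a1, ha1, hs1⟩ := SvX_small e4 (4 * C * (C1 + C2)) (ε / 2) he4 (by positivity) (by positivity)
  obtain ⟨a2, ha2, hs2⟩ := SvX_small e4 C (1 / 2) he4 hC (by norm_num)
  refine ⟨min (min a1 a2) (min (e4 / 80) 1), by positivity, fun e1 he1 he1' => ?_⟩
  simp only [le_min_iff] at he1'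
  obtain ⟨⟨k1, k2⟩, k3, k4⟩ := he1'
  refine ⟨16, fun A => ⟨2 * A + 10, fun B hB => ?_⟩⟩
  obtain ⟨N0, hN0⟩ := sv_ev e4 e1 ε he4 he1 k3 hε A B (by omega)
  refine ⟨N0, fun N hN => ?_⟩
  set w := ⌊Real.log N ^ B⌋₊ with hw
  set r := ⌊Real.sqrt (Real.log N)⌋₊ with hr
  set D := ⌊(N : ℝ) ^ (e4 / 40)⌋₊ with hD
  obtain ⟨b1, b2, b3, b4, b5, b6, b7, b8, b9, b10, b11, b12, b13, b14, b15, b16, b17, b18, b19, b20⟩ :=
    hN0 N hN w r D (w ^ (2 * r) * D ^ 2) hw hr hD rfl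
  set y := yN e1 N with hy
  set L := Real.log (N : ℝ) with hL
  set Q := w ^ (2 * r) * D ^ 2 with hQ
  have hL0 : 0 < L := by linarith only [b1]
  have hL1 : 1 ≤ L := by linarith only [b1]
  obtain ⟨ρ, hρ, hSF⟩ := SvX_sel w y D (by omega) b7
  have hGD1 := SvX_GD w y D b7
  have hGD : 0 < GD w y D := lt_of_lt_of_le one_pos hGD1
  have hAdm : Adm Q (gS w y r ρ) (SS w y r ρ) := SvX_adm w y r D ρ (by omega) b3 hρ
  have hQ1 : 1 ≤ Q := by omega
  have hQr : (1 : ℝ) ≤ Q := by exact_mod_cast hQ1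
  have hlogQ : 0 ≤ Real.log Q := Real.log_nonneg hQr
  have hkS0 : 0 ≤ VV (PW w) * (1 / GD w y D) :=
    mul_nonneg (SvX_VV_nonneg _ (SvX_PW w)) (by positivity)
  have h2r : (0 : ℝ) < 2 ^ r := by positivity
  have hN0' : N ≠ 0 := by
    rintro rfl
    rw [hL] at b1
    norm_num at b1
  have hNr1 : (1 : ℝ) ≤ N := by exact_mod_cast Nat.one_le_iff_ne_zero.2 hN0'
  refine ⟨SS w y r ρ, gS w y r ρ, VV (PW w) * (1 / GD w y D), Q, hAdm, hQ1,
    b10.trans (Real.rpow_le_rpow_of_exponent_le hNr1 (by linarith only [he1, k3])), fun m hm => ss_ge w y r D ρ b3 hρ m hm,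
    fun m => ss_nonneg w y r ρ m, hkS0, ?_, ?_, ?_, ?_⟩
  · -- kS ≤ 1
    refine mul_le_one₀ (SvX_VV_le _ (SvX_PW w)) (by positivity) ?_
    rw [div_le_one hGD]
    exact hGD1
  · -- Bs
    intro H i α hH hi
    have hNpos : (0 : ℝ) < (N : ℝ) ^ e4 := by
      have : (0 : ℝ) < (Q : ℝ) ^ 4 := by positivity
      linarith only [b20, this]
    have hH0 : (0 : ℝ) < H := by linarith only [hH, hNpos]
    have hH1 : 1 ≤ H := by exact_mod_cast Nat.pos_of_ne_zero (fun h => by rw [h] at hH0; norm_num at hH0)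
    have key := tyI_bs Q w (gS w y r ρ) (SS w y r ρ) (VV (PW w) * (1 / GD w y D)) (1 / 2 ^ r) hAdm
      (by omega) b19 (by positivity) (fun q hq hqw => by
        rw [← hSF]
        exact gs_sing w y r D q ρ b2 b3 hρ b5 (by rw [hSF]; positivity)
          (by rw [hSF, div_le_one hGD]; exact hGD1) hq hqw) H i hi hH1 α
    refine key.trans ?_
    have e1 : (1 : ℝ) / 2 ^ r ≤ 1 / (8 * L ^ A) := one_div_le_one_div_of_le (by positivity) b13
    have e2 : 6 * (1 + Real.log Q) ^ 3 / Real.sqrt w ≤ 1 / (2 * L ^ A) := by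
      have hw0 : (0 : ℝ) < w := by exact_mod_cast (by omega : 0 < w)
      rw [div_le_div_iff₀ (Real.sqrt_pos.2 hw0) (by positivity)]
      have t1 : 2 * L ^ (A + 4) ≤ Real.sqrt w := by
        apply Real.le_sqrt_of_sq_le
        have t2 : (2 * L ^ (A + 4)) ^ 2 = 4 * L ^ (2 * A + 8) := by ring
        have t3 : L ^ (2 * A + 8) * 8 ≤ L ^ B := by
          calc L ^ (2 * A + 8) * 8 ≤ L ^ (2 * A + 8) * L := mul_le_mul_of_nonneg_left b1 (by positivity)
            _ = L ^ (2 * A + 9) := by ring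
            _ ≤ L ^ B := pow_le_pow_right₀ hL1 (by omega)
        rw [t2]
        linarith only [b4, t3]
      calc 6 * (1 + Real.log Q) ^ 3 * (2 * L ^ A) ≤ L ^ 4 * (2 * L ^ A) :=
            mul_le_mul_of_nonneg_right b11 (by positivity)
        _ = 2 * L ^ (A + 4) := by ring
        _ ≤ Real.sqrt w := t1
        _ = 1 * Real.sqrt w := (one_mul _).symm
    have e3 : (Q : ℝ) ^ 4 * (1 / 2 ^ r + 6 * (1 + Real.log Q) ^ 3) ≤ H / (4 * L ^ A) := by
      have t1 : (1 : ℝ) / 2 ^ r ≤ 1 := by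
        rw [div_le_one h2r]
        exact one_le_pow₀ (by norm_num)
      have t2 : (1 : ℝ) ≤ L ^ 4 := one_le_pow₀ hL1
      have t3 : 1 / 2 ^ r + 6 * (1 + Real.log Q) ^ 3 ≤ 2 * L ^ 4 := by linarith only [b11, t1, t2]
      rw [le_div_iff₀ (by positivity)]
      calc (Q : ℝ) ^ 4 * (1 / 2 ^ r + 6 * (1 + Real.log Q) ^ 3) * (4 * L ^ A)
          ≤ (Q : ℝ) ^ 4 * (2 * L ^ 4) * (4 * L ^ A) := by
            refine mul_le_mul_of_nonneg_right (mul_le_mul_of_nonneg_left t3 (by positivity)) (by positivity)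
        _ = 8 * (Q : ℝ) ^ 4 * L ^ (A + 4) := by ring
        _ ≤ H := b17.trans hH
    have e4' : (H : ℝ) * (1 / 2 ^ r + 6 * (1 + Real.log Q) ^ 3 / Real.sqrt w) ≤
        H * (1 / (8 * L ^ A) + 1 / (2 * L ^ A)) := mul_le_mul_of_nonneg_left (add_le_add e1 e2) hH0.le
    have e5 : (H : ℝ) * (1 / (8 * L ^ A) + 1 / (2 * L ^ A)) + H / (4 * L ^ A) = 7 / 8 * (H / L ^ A) := by
      field_simp
      ring
    have e6 : 0 < (H : ℝ) / L ^ A := by positivity
    linarith only [e3, e4', e5, e6]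
  · -- the second moment
    intro u w' hu hw'
    have hw4 : Q ^ 4 ≤ w' := by
      have : ((Q ^ 4 : ℕ) : ℝ) ≤ w' := by push_cast; exact b20.trans hw'
      exact_mod_cast this
    have key := tyI_sq Q (gS w y r ρ) (SS w y r ρ) hQ1 hAdm u w' hu hw4
    refine key.trans ?_
    calc 100 * (w' : ℝ) * (1 + 2 * Real.log Q) ^ 15 = w' * (100 * (1 + 2 * Real.log Q) ^ 15) := by ring
      _ ≤ w' * L ^ 16 := mul_le_mul_of_nonneg_left b12 (Nat.cast_nonneg _)
  · -- the mean value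
    intro x l hl
    have hl0 : (0 : ℝ) ≤ l := Nat.cast_nonneg _
    have hexp : Real.exp (-(Real.log D / Real.log y)) ≤ Real.exp (-(e4 / (50 * e1))) := by
      apply Real.exp_le_exp.2
      linarith only [b18]
    have hE : C * Real.exp (-(Real.log D / Real.log y)) ≤ 1 / 2 := by
      have t1 := hs2 e1 he1 k2
      have t2 : C * Real.exp (-(e4 / (50 * e1))) ≤ C / e1 * Real.exp (-(e4 / (50 * e1))) := by
        refine mul_le_mul_of_nonneg_right ?_ (Real.exp_pos _).le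
        rw [le_div_iff₀ he1]
        nlinarith only [hC, k4]
      exact (mul_le_mul_of_nonneg_left hexp hC.le).trans (t2.trans t1)
    have key := SvX_mean C C1 C2 hC hC1 hC2 hg hv hs w y r D x l b2 b3 b6 b5 hE
    refine key.trans ?_
    have hlogy : 0 < Real.log y := lt_of_lt_of_le (by positivity) b9
    have m1 : (l : ℝ) * (2 * C * (C1 + C2) / Real.log y * Real.exp (-(Real.log D / Real.log y))) ≤
        ε / 2 * l / L := by
      have t1 := hs1 e1 he1 k1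
      have t2 : 2 * C * (C1 + C2) / Real.log y ≤ 4 * C * (C1 + C2) / e1 / L := by
        rw [div_div, div_le_div_iff₀ hlogy (by positivity)]
        have t3 := mul_le_mul_of_nonneg_left b9 (show 0 ≤ 4 * C * (C1 + C2) by positivity)
        linarith only [t3]
      have t4 : 2 * C * (C1 + C2) / Real.log y * Real.exp (-(Real.log D / Real.log y)) ≤
          4 * C * (C1 + C2) / e1 / L * Real.exp (-(e4 / (50 * e1))) :=
        mul_le_mul t2 hexp (Real.exp_pos _).le (by positivity)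
      have t5 : 4 * C * (C1 + C2) / e1 / L * Real.exp (-(e4 / (50 * e1))) =
          (4 * C * (C1 + C2) / e1 * Real.exp (-(e4 / (50 * e1)))) / L := by ring
      rw [t5] at t4
      have t6 := t4.trans (div_le_div_of_nonneg_right t1 hL0.le)
      calc _ ≤ (l : ℝ) * (ε / 2 / L) := mul_le_mul_of_nonneg_left t6 hl0
        _ = ε / 2 * l / L := by ring
    have m2 : 2 * l * (2 + Real.log y) / 2 ^ r ≤ ε / 8 * l / L := by
      rw [div_le_div_iff₀ h2r hL0]
      have t1 := mul_le_mul_of_nonneg_left b14 hl0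
      linarith only [t1]
    have m3 : 10 * y * ((w : ℝ) ^ (2 * r) * (D : ℝ) ^ 2) ^ 2 ≤ ε / 8 * l / L := by
      have t0 : (w : ℝ) ^ (2 * r) * (D : ℝ) ^ 2 = Q := by rw [hQ]; push_cast; ring
      rw [t0, le_div_iff₀ hL0]
      have t1 := mul_le_mul_of_nonneg_left hl hε.le
      linarith only [b15, t1]
    have m4 : ((w : ℝ) + 1) ^ (2 * r + 1) ≤ ε / 8 * l / L := by
      rw [le_div_iff₀ hL0]
      have t1 := mul_le_mul_of_nonneg_left hl hε.le
      linarith only [b16, t1]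
    have m5 : ε * l / L = ε / 2 * l / L + ε / 8 * l / L + ε / 8 * l / L + ε / 8 * l / L + ε / 8 * l / L := by ring
    have m6 : 0 ≤ ε / 8 * l / L := by positivity
    rw [m5]
    linarith only [m1, m2, m3, m4, m6]

/-- the sum over the primes and the two densities -/
private theorem SvX_dens (C C1 C2 : ℝ) (hC : 0 < C)
    (hg : ∀ w y D : ℕ, 2 ≤ w → w ≤ y → 1 ≤ D →
      1 - C * Real.exp (-(Real.log D / Real.log y)) ≤ VV (PY w y) * GD w y D)
    (hv : ∀ n : ℕ, 2 ≤ n → VV (PW n) ≤ C1 / Real.log n)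
    (hs : ∀ w y D : ℕ, 2 ≤ w → w ≤ y → y ≤ D →
      ∑ p ∈ PY w y, VV (PW (p - 1)) / p * Real.exp (-(Real.log D / Real.log p)) ≤
        C2 / Real.log y * Real.exp (-(Real.log D / Real.log y)))
    (w y D : ℕ) (ρ : ℕ → Finset ℕ → ℝ) (hw : 2 ≤ w) (hwy : w ≤ y) (hyD : y ≤ D)
    (hρ2 : ∀ p, SF w (p - 1) (ρ p) = 1 / GD w (p - 1) D)
    (hE : C * Real.exp (-(Real.log D / Real.log y)) ≤ 1 / 2) :
    VV (PW w) * (1 / GD w y D) ≤ kTv w y ρ +
      2 * C * (C1 + C2) / Real.log y * Real.exp (-(Real.log D / Real.log y)) ∧ |kTv w y ρ| ≤ 1 := by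
  classical
  have hD : 1 ≤ D := by omega
  have hGD : ∀ y' : ℕ, 0 < GD w y' D := fun y' => lt_of_lt_of_le one_pos (SvX_GD w y' D hD)
  have hlogD : 0 ≤ Real.log D := Real.log_natCast_nonneg D
  have hlogy : 0 < Real.log y := Real.log_pos (by exact_mod_cast (by omega : 1 < y))
  have h2 : ∀ p ∈ PY w y, VV (PW w) * SF w (p - 1) (ρ p) / p ≤ VV (PW (p - 1)) / p +
      2 * C * (VV (PW (p - 1)) / p * Real.exp (-(Real.log D / Real.log p))) ∧
      VV (PW w) * SF w (p - 1) (ρ p) / p ≤ 2 * (VV (PW (p - 1)) / p) := by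
    intro p hp
    obtain ⟨p1, p2, p3⟩ := SvX_mem w y p hp
    have hp0 : (0 : ℝ) < p := by exact_mod_cast (by omega : 0 < p)
    have q1 : 0 < Real.log ((p - 1 : ℕ) : ℝ) := Real.log_pos (by exact_mod_cast (by omega : 1 < p - 1))
    have q2 : Real.log ((p - 1 : ℕ) : ℝ) ≤ Real.log p :=
      Real.log_le_log (by exact_mod_cast (by omega : 0 < p - 1)) (by exact_mod_cast (by omega))
    have q3 : Real.log p ≤ Real.log y := Real.log_le_log hp0 (by exact_mod_cast p2)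
    have q4 : 0 < Real.log (p : ℝ) := by linarith only [q1, q2]
    have q5 : Real.exp (-(Real.log D / Real.log ((p - 1 : ℕ) : ℝ))) ≤ Real.exp (-(Real.log D / Real.log p)) := by
      apply Real.exp_le_exp.2
      have := div_le_div_of_nonneg_left hlogD q1 q2
      linarith only [this]
    have q6 : Real.exp (-(Real.log D / Real.log p)) ≤ Real.exp (-(Real.log D / Real.log y)) := by
      apply Real.exp_le_exp.2
      have := div_le_div_of_nonneg_left hlogD q4 q3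
      linarith only [this]
    have q61 : C * Real.exp (-(Real.log D / Real.log p)) ≤ 1 / 2 := (mul_le_mul_of_nonneg_left q6 hC.le).trans hE
    have q7 := SvX_inv C hC hg w (p - 1) D hw (by omega) hD (C * Real.exp (-(Real.log D / Real.log p)))
      (mul_le_mul_of_nonneg_left q5 hC.le) q61
    have q9 : 0 ≤ VV (PW (p - 1)) := SvX_VV_nonneg _ (SvX_PW (p - 1))
    rw [hρ2 p]
    have q8 := div_le_div_of_nonneg_right q7 hp0.le
    constructor
    · refine q8.trans (le_of_eq ?_)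
      ring
    · refine q8.trans ?_
      have q10 : VV (PW (p - 1)) * (1 + 2 * (C * Real.exp (-(Real.log D / Real.log p)))) ≤ 2 * VV (PW (p - 1)) := by
        have := mul_le_mul_of_nonneg_left q61 q9
        linarith only [this]
      have q11 := div_le_div_of_nonneg_right q10 hp0.le
      refine q11.trans (le_of_eq ?_)
      ring
  have h1 : ∑ p ∈ PY w y, VV (PW w) * SF w (p - 1) (ρ p) / p ≤
      ∑ p ∈ PY w y, VV (PW (p - 1)) / p +
        2 * C * (C2 / Real.log y * Real.exp (-(Real.log D / Real.log y))) := by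
    refine (sum_le_sum fun p hp => (h2 p hp).1).trans ?_
    rw [sum_add_distrib, ← mul_sum]
    have h3 := mul_le_mul_of_nonneg_left (hs w y D hw hwy hyD) (show 0 ≤ 2 * C by positivity)
    linarith only [h3]
  have h1' : ∑ p ∈ PY w y, VV (PW w) * SF w (p - 1) (ρ p) / p ≤ 2 * ∑ p ∈ PY w y, VV (PW (p - 1)) / p := by
    rw [mul_sum]
    exact sum_le_sum fun p hp => (h2 p hp).2
  have h1n : 0 ≤ ∑ p ∈ PY w y, VV (PW w) * SF w (p - 1) (ρ p) / p := by
    refine sum_nonneg fun p hp => ?_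
    rw [hρ2 p]
    exact div_nonneg (mul_nonneg (SvX_VV_nonneg _ (SvX_PW w)) (div_pos one_pos (hGD _)).le) (Nat.cast_nonneg _)
  have h4 := vbuch w y hwy
  have h5 : VV (PW w) * (1 / GD w y D) ≤ VV (PW y) +
      2 * C * (C1 / Real.log y * Real.exp (-(Real.log D / Real.log y))) := by
    have q7 := SvX_inv C hC hg w y D hw hwy hD _ le_rfl hE
    have q8 := mul_le_mul_of_nonneg_right (hv y (by omega))
      (show 0 ≤ 2 * C * Real.exp (-(Real.log D / Real.log y)) by positivity)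
    calc _ ≤ _ := q7
      _ = VV (PW y) + VV (PW y) * (2 * C * Real.exp (-(Real.log D / Real.log y))) := by ring
      _ ≤ VV (PW y) + C1 / Real.log y * (2 * C * Real.exp (-(Real.log D / Real.log y))) := by linarith only [q8]
      _ = _ := by ring
  have h6 := SvX_VV_nonneg _ (SvX_PW y)
  have h7 := SvX_VV_le _ (SvX_PW w)
  have h9 := SvX_VV_nonneg _ (SvX_PW w)
  unfold kTv
  constructor
  · have h8 : 2 * C * (C1 + C2) / Real.log y * Real.exp (-(Real.log D / Real.log y)) =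
        2 * C * (C1 / Real.log y * Real.exp (-(Real.log D / Real.log y))) +
        2 * C * (C2 / Real.log y * Real.exp (-(Real.log D / Real.log y))) := by ring
    rw [h8]
    linarith only [h1, h4, h5]
  · rw [abs_le]
    constructor
    · linarith only [h1', h4, h6, h7]
    · linarith only [h1n, h7]

/-- `sieve_low` with the windows `N^(1/50)` -/
private theorem SvX_low (e4 ε : ℝ) (he4 : 0 < e4) (he4' : e4 ≤ 1 / 100) (hε : 0 < ε) :
    ∃ e10 : ℝ, 0 < e10 ∧ ∀ e1 : ℝ, 0 < e1 → e1 ≤ e10 → ∃ C : ℕ, ∀ A : ℕ, ∃ B0 : ℕ, ∀ B : ℕ, B0 ≤ B → ∃ N0 : ℕ,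
      ∀ N : ℕ, N0 ≤ N → ∃ (T g : ℕ → ℝ) (kT : ℝ) (Q : ℕ),
        Adm Q g T ∧ 1 ≤ Q ∧ (Q : ℝ) ≤ (N : ℝ) ^ e4 ∧ (∀ m, 1 ≤ m → T m ≤ rg (yN e1 N) m) ∧ |kT| ≤ 1 ∧
        (∀ (H i : ℕ) (α : ℝ), (N : ℝ) ^ (1 / 50 : ℝ) ≤ H → 1 ≤ i →
          ‖Bs (fun m => T m - kT * lamR ⌊Real.log N ^ B⌋₊ m) H i α‖ ≤ H / Real.log N ^ A) ∧
        (∀ u w : ℕ, 1 ≤ u → (N : ℝ) ^ (1 / 50 : ℝ) ≤ w → ∑ m ∈ Ico u (u + w), T m ^ 2 ≤ w * Real.log N ^ C) ∧
        (∀ x l : ℕ, (N : ℝ) ^ (1 / 50 : ℝ) ≤ l →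
          ∑ m ∈ Ioc x (x + l), rg (yN e1 N) m ≤ kT * l + ε * l / Real.log N) := by
  obtain ⟨C, hC, hg⟩ := gup
  obtain ⟨C1, hC1, hv⟩ := vv_le
  obtain ⟨C2, hC2, hs⟩ := vsum
  obtain ⟨a1, ha1, hs1⟩ := SvX_small e4 (4 * C * (C1 + C2)) (ε / 2) he4 (by positivity) (by positivity)
  obtain ⟨a2, ha2, hs2⟩ := SvX_small e4 C (1 / 2) he4 hC (by norm_num)
  refine ⟨min (min a1 a2) (min (e4 / 80) 1), by positivity, fun e1 he1 he1' => ?_⟩
  simp only [le_min_iff] at he1'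
  obtain ⟨⟨k1, k2⟩, k3, k4⟩ := he1'
  refine ⟨16, fun A => ⟨2 * A + 10, fun B hB => ?_⟩⟩
  obtain ⟨N0, hN0⟩ := sv_ev e4 e1 ε he4 he1 k3 hε (A + 2) B (by omega)
  obtain ⟨N1, hN1⟩ := Pool.Agent.H76.GB.log_pow_le (1 / 100) 8 (by norm_num) (by norm_num) (A + 4)
  refine ⟨max N0 N1, fun N hN => ?_⟩
  have hlp := hN1 N ((le_max_right _ _).trans hN)
  set w := ⌊Real.log N ^ B⌋₊ with hw
  set r := ⌊Real.sqrt (Real.log N)⌋₊ with hr
  set D := ⌊(N : ℝ) ^ (e4 / 40)⌋₊ with hD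
  obtain ⟨b1, b2, b3, b4, b5, b6, b7, b8, b9, b10, b11, b12, b13, b14, b15, b16, b17, b18, b19, b20⟩ :=
    hN0 N ((le_max_left _ _).trans hN) w r D (w ^ (2 * r) * D ^ 2) hw hr hD rfl
  set y := yN e1 N with hy
  set L := Real.log (N : ℝ) with hL
  set Q0 := w ^ (2 * r) * D ^ 2 with hQ0
  have hL0 : 0 < L := by linarith only [he4', he1, k3, b1]
  have hL1 : 1 ≤ L := by linarith only [he4', he1, k3, b1]
  have hN0' : N ≠ 0 := by
    rintro rfl
    rw [hL] at b1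
    norm_num at b1
  have hNr1 : (1 : ℝ) ≤ N := by exact_mod_cast Nat.one_le_iff_ne_zero.2 hN0'
  have hNpos : (0 : ℝ) < N := by linarith only [he4', he1, k3, hNr1]
  -- the level
  obtain ⟨Q, hQ⟩ : ∃ Q, Q = y * (w ^ (2 * r + 1) * D ^ 2) := ⟨_, rfl⟩
  have hQe : Q = y * w * Q0 := by rw [hQ, hQ0]; ring
  have hy1 : 1 ≤ y := by omega
  have hQ01 : 1 ≤ Q0 := by omega
  have hwQ : w ≤ Q := by
    rw [hQe]
    calc w = 1 * w * 1 := by ring
      _ ≤ y * w * Q0 := Nat.mul_le_mul (Nat.mul_le_mul hy1 le_rfl) hQ01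
  have hQ1 : 1 ≤ Q := by omega
  have hQr : (1 : ℝ) ≤ Q := by exact_mod_cast hQ1
  have hlogQ : 0 ≤ Real.log Q := Real.log_nonneg hQr
  have hwN : (w : ℝ) ≤ (N : ℝ) ^ e1 := le_trans (by exact_mod_cast b3) b8
  have hQN : (Q : ℝ) ≤ (N : ℝ) ^ (e4 / 8) := by
    rw [hQe]
    push_cast
    calc (y : ℝ) * w * Q0 ≤ (N : ℝ) ^ e1 * (N : ℝ) ^ e1 * (N : ℝ) ^ (e4 / 12) :=
          mul_le_mul (mul_le_mul b8 hwN (Nat.cast_nonneg _) (by positivity)) b10 (Nat.cast_nonneg _) (by positivity)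
      _ = (N : ℝ) ^ (e1 + e1 + e4 / 12) := by
          rw [Real.rpow_add hNpos, Real.rpow_add hNpos]
      _ ≤ (N : ℝ) ^ (e4 / 8) := Real.rpow_le_rpow_of_exponent_le hNr1 (by linarith only [he1, k3])
  have hQ4 : (Q : ℝ) ^ 4 ≤ (N : ℝ) ^ (1 / 200 : ℝ) := by
    calc (Q : ℝ) ^ 4 ≤ ((N : ℝ) ^ (e4 / 8)) ^ 4 := pow_le_pow_left₀ (Nat.cast_nonneg _) hQN 4
      _ = (N : ℝ) ^ (e4 / 2) := by
          rw [← Real.rpow_natCast, ← Real.rpow_mul hNpos.le]
          congr 1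
          push_cast
          ring
      _ ≤ (N : ℝ) ^ (1 / 200 : ℝ) := Real.rpow_le_rpow_of_exponent_le hNr1 (by linarith only [he4'])
  have hQL : Real.log Q ≤ L / 800 := by
    have h1 := Real.log_le_log (by linarith only [he4', he1, k3, hQr]) hQN
    rw [Real.log_rpow hNpos] at h1
    have h2 : e4 / 8 * Real.log (N : ℝ) ≤ 1 / 800 * L := mul_le_mul_of_nonneg_right (by linarith only [he4']) hL0.le
    linarith only [h1, h2]
  have c11 : 6 * (1 + Real.log Q) ^ 3 ≤ L ^ 4 := by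
    calc 6 * (1 + Real.log Q) ^ 3 ≤ 6 * L ^ 3 :=
          mul_le_mul_of_nonneg_left (pow_le_pow_left₀ (by linarith only [he4', he1, k3, hlogQ]) (by linarith only [he4', he1, k3, b1, hQL]) 3) (by norm_num)
      _ ≤ L * L ^ 3 := mul_le_mul_of_nonneg_right (by linarith only [he4', he1, k3, b1]) (by positivity)
      _ = L ^ 4 := by ring
  have c12 : 100 * (1 + 2 * Real.log Q) ^ 15 ≤ L ^ 16 := by
    have t1 : 1 + 2 * Real.log Q ≤ L / 7 := by linarith only [he4', he1, k3, b1, hQL]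
    calc 100 * (1 + 2 * Real.log Q) ^ 15 ≤ 100 * (L / 7) ^ 15 :=
          mul_le_mul_of_nonneg_left (pow_le_pow_left₀ (by linarith only [he4', he1, k3, hlogQ]) t1 15) (by norm_num)
      _ = (100 / 7 ^ 15) * L ^ 15 := by ring
      _ ≤ L * L ^ 15 := mul_le_mul_of_nonneg_right (le_trans (by norm_num) hL1) (by positivity)
      _ = L ^ 16 := by ring
  have hlogy : 0 < Real.log y := lt_of_lt_of_le (by positivity) b9
  have hlogyL : Real.log y ≤ L := by
    have h1 := Real.log_le_log (by exact_mod_cast hy1) b8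
    rw [Real.log_rpow hNpos] at h1
    have h2 : e1 * Real.log (N : ℝ) ≤ 1 * L := mul_le_mul_of_nonneg_right k4 hL0.le
    linarith only [h1, h2]
  have h2r : (0 : ℝ) < 2 ^ r := by positivity
  -- the weights
  have hsel' : ∀ p : ℕ, ∃ ρ : Finset ℕ → ℝ, Rho w (p - 1) D ρ ∧ SF w (p - 1) ρ = 1 / GD w (p - 1) D :=
    fun p => SvX_sel w (p - 1) D (by omega) b7
  choose ρ hρ1 hρ2 using hsel'
  have hGD : ∀ y' : ℕ, 0 < GD w y' D := fun y' => lt_of_lt_of_le one_pos (SvX_GD w y' D b7)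
  have hexp : Real.exp (-(Real.log D / Real.log y)) ≤ Real.exp (-(e4 / (50 * e1))) := by
    apply Real.exp_le_exp.2
    linarith only [b18]
  have hE : C * Real.exp (-(Real.log D / Real.log y)) ≤ 1 / 2 := by
    have t1 := hs2 e1 he1 k2
    have t2 : C * Real.exp (-(e4 / (50 * e1))) ≤ C / e1 * Real.exp (-(e4 / (50 * e1))) := by
      refine mul_le_mul_of_nonneg_right ?_ (Real.exp_pos _).le
      rw [le_div_iff₀ he1]
      exact mul_le_of_le_one_right hC.le k4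
    exact (mul_le_mul_of_nonneg_left hexp hC.le).trans (t2.trans t1)
  obtain ⟨hkk, hk1⟩ := SvX_dens C C1 C2 hC hg hv hs w y D ρ b2 b3 b6 hρ2 hE
  have hAdm : Adm Q (gT w y r ρ) (TSv w y r ρ) := by
    rw [hQ]
    exact ts_adm w y r D ρ (by omega) b3 b7 (fun p _ => hρ1 p)
  refine ⟨TSv w y r ρ, gT w y r ρ, kTv w y ρ, Q, hAdm, hQ1,
    hQN.trans (Real.rpow_le_rpow_of_exponent_le hNr1 (by linarith only [he1, k3])),
    fun m hm => ts_le w y r D ρ (by omega) b3 (fun p _ => hρ1 p) m hm, hk1, ?_, ?_, ?_⟩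
  · -- Bs
    intro H i α hH hi
    have hH0 : (0 : ℝ) < H := lt_of_lt_of_le (by positivity) hH
    have hH1 : 1 ≤ H := by exact_mod_cast Nat.pos_of_ne_zero (fun h => by rw [h] at hH0; norm_num at hH0)
    have key := tyI_bs Q w (gT w y r ρ) (TSv w y r ρ) (kTv w y ρ) ((3 + Real.log y) / 2 ^ r) hAdm
      (by omega) hwQ (by positivity) (fun q hq hqw => by
        rw [hQ]
        exact gt_sing w y r D q ρ b2 b3 b7 b5 (fun p _ => ⟨hρ1 p, by
          rw [hρ2 p]; exact (div_pos one_pos (hGD _)).le, by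
          rw [hρ2 p, div_le_one (hGD _)]; exact SvX_GD w (p - 1) D b7⟩) hq hqw) H i hi hH1 α
    refine key.trans ?_
    have hd : (3 + Real.log y) * (8 * L ^ A) ≤ 2 ^ r := by
      have t1 : 3 + Real.log y ≤ L ^ 2 := by
        have t2 : 8 * L ≤ L * L := mul_le_mul_of_nonneg_right b1 hL0.le
        rw [pow_two]
        linarith only [he4', he1, k3, b1, hlogyL, t2]
      calc (3 + Real.log y) * (8 * L ^ A) ≤ L ^ 2 * (8 * L ^ A) := mul_le_mul_of_nonneg_right t1 (by positivity)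
        _ = 8 * L ^ (A + 2) := by ring
        _ ≤ 2 ^ r := b13
    have e1' : (3 + Real.log y) / 2 ^ r ≤ 1 / (8 * L ^ A) := by
      rw [div_le_div_iff₀ h2r (by positivity)]
      linarith only [hd]
    have e2 : 6 * (1 + Real.log Q) ^ 3 / Real.sqrt w ≤ 1 / (2 * L ^ A) := by
      have hw0 : (0 : ℝ) < w := by exact_mod_cast (by omega : 0 < w)
      rw [div_le_div_iff₀ (Real.sqrt_pos.2 hw0) (by positivity)]
      have t1 : 2 * L ^ (A + 4) ≤ Real.sqrt w := by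
        apply Real.le_sqrt_of_sq_le
        have t2 : (2 * L ^ (A + 4)) ^ 2 = 4 * L ^ (2 * A + 8) := by ring
        have t3 : L ^ (2 * A + 8) * 8 ≤ L ^ B := by
          calc L ^ (2 * A + 8) * 8 ≤ L ^ (2 * A + 8) * L := mul_le_mul_of_nonneg_left b1 (by positivity)
            _ = L ^ (2 * A + 9) := by ring
            _ ≤ L ^ B := pow_le_pow_right₀ hL1 (by omega)
        rw [t2]
        linarith only [b4, t3]
      calc 6 * (1 + Real.log Q) ^ 3 * (2 * L ^ A) ≤ L ^ 4 * (2 * L ^ A) :=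
            mul_le_mul_of_nonneg_right c11 (by positivity)
        _ = 2 * L ^ (A + 4) := by ring
        _ ≤ Real.sqrt w := t1
        _ = 1 * Real.sqrt w := (one_mul _).symm
    have e3 : (Q : ℝ) ^ 4 * ((3 + Real.log y) / 2 ^ r + 6 * (1 + Real.log Q) ^ 3) ≤ H / (4 * L ^ A) := by
      have t1 : (3 + Real.log y) / 2 ^ r ≤ 1 := by
        refine e1'.trans ?_
        rw [div_le_one (by positivity)]
        have := one_le_pow₀ (M₀ := ℝ) hL1 (n := A)
        linarith only [he4', he1, k3, this]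
      have t2 : (1 : ℝ) ≤ L ^ 4 := one_le_pow₀ hL1
      have t3 : (3 + Real.log y) / 2 ^ r + 6 * (1 + Real.log Q) ^ 3 ≤ 2 * L ^ 4 := by linarith only [c11, t1, t2]
      rw [le_div_iff₀ (by positivity)]
      calc (Q : ℝ) ^ 4 * ((3 + Real.log y) / 2 ^ r + 6 * (1 + Real.log Q) ^ 3) * (4 * L ^ A)
          ≤ (Q : ℝ) ^ 4 * (2 * L ^ 4) * (4 * L ^ A) := by
            refine mul_le_mul_of_nonneg_right (mul_le_mul_of_nonneg_left t3 (by positivity)) (by positivity)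
        _ = (Q : ℝ) ^ 4 * (8 * L ^ (A + 4)) := by ring
        _ ≤ (N : ℝ) ^ (1 / 200 : ℝ) * (N : ℝ) ^ (1 / 100 : ℝ) :=
            mul_le_mul hQ4 hlp (by positivity) (by positivity)
        _ = (N : ℝ) ^ (1 / 200 + 1 / 100 : ℝ) := by rw [Real.rpow_add hNpos]
        _ ≤ (N : ℝ) ^ (1 / 50 : ℝ) := Real.rpow_le_rpow_of_exponent_le hNr1 (by norm_num)
        _ ≤ H := hH
    have e4' : (H : ℝ) * ((3 + Real.log y) / 2 ^ r + 6 * (1 + Real.log Q) ^ 3 / Real.sqrt w) ≤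
        H * (1 / (8 * L ^ A) + 1 / (2 * L ^ A)) := mul_le_mul_of_nonneg_left (add_le_add e1' e2) hH0.le
    have e5 : (H : ℝ) * (1 / (8 * L ^ A) + 1 / (2 * L ^ A)) + H / (4 * L ^ A) = 7 / 8 * (H / L ^ A) := by
      field_simp
      ring
    have e6 : 0 < (H : ℝ) / L ^ A := by positivity
    linarith only [e3, e4', e5, e6]
  · -- the second moment
    intro u w' hu hw'
    have hw4 : Q ^ 4 ≤ w' := by
      have : ((Q ^ 4 : ℕ) : ℝ) ≤ w' := by
        push_cast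
        exact hQ4.trans ((Real.rpow_le_rpow_of_exponent_le hNr1 (by norm_num)).trans hw')
      exact_mod_cast this
    have key := tyI_sq Q (gT w y r ρ) (TSv w y r ρ) hQ1 hAdm u w' hu hw4
    refine key.trans ?_
    calc 100 * (w' : ℝ) * (1 + 2 * Real.log Q) ^ 15 = w' * (100 * (1 + 2 * Real.log Q) ^ 15) := by ring
      _ ≤ w' * L ^ 16 := mul_le_mul_of_nonneg_left c12 (Nat.cast_nonneg _)
  · -- the mean value
    intro x l hl
    have hl0 : (0 : ℝ) ≤ l := Nat.cast_nonneg _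
    have hle4 : (N : ℝ) ^ e4 ≤ l := (Real.rpow_le_rpow_of_exponent_le hNr1 (by linarith only [he4', he1, k3])).trans hl
    obtain ⟨ρ', hρ', hSF⟩ := SvX_sel w y D (by omega) b7
    have hAdm' : Adm Q0 (gS w y r ρ') (SS w y r ρ') := SvX_adm w y r D ρ' (by omega) b3 hρ'
    have n1 : ∑ m ∈ Ioc x (x + l), rg y m ≤ ∑ m ∈ Ioc x (x + l), SS w y r ρ' m := by
      refine sum_le_sum fun m hm => ?_
      rw [mem_Ioc] at hm
      exact ss_ge w y r D ρ' b3 hρ' m (by omega)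
    have n2 := (abs_le.1 (tyI_mean Q0 (gS w y r ρ') (SS w y r ρ') hQ01 hAdm' x l)).2
    have n3 := (abs_le.1 (gs_sing w y r D 1 ρ' b2 b3 hρ' b5
      (by rw [hSF]; exact (div_pos one_pos (hGD _)).le)
      (by rw [hSF, div_le_one (hGD _)]; exact SvX_GD w y D b7) le_rfl (by omega))).2
    have n4 : ∑ n ∈ (Icc 1 (w ^ (2 * r) * D ^ 2)).filter (fun n => 1 ∣ n), gS w y r ρ' n / n =
        ∑ n ∈ Icc 1 Q0, gS w y r ρ' n / n := by
      rw [filter_true_of_mem (fun n _ => one_dvd n)]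
    rw [n4, hSF] at n3
    simp only [ArithmeticFunction.moebius_apply_one, Nat.totient_one, Int.cast_one, Nat.cast_one, mul_one,
      div_one] at n3
    have n5 : (l : ℝ) * ∑ n ∈ Icc 1 Q0, gS w y r ρ' n / n ≤
        l * (kTv w y ρ + 2 * C * (C1 + C2) / Real.log y * Real.exp (-(Real.log D / Real.log y)) + 1 / 2 ^ r) :=
      mul_le_mul_of_nonneg_left (by linarith only [hkk, n3]) hl0
    have m1 : (l : ℝ) * (2 * C * (C1 + C2) / Real.log y * Real.exp (-(Real.log D / Real.log y))) ≤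
        ε / 2 * l / L := by
      have t1 := hs1 e1 he1 k1
      have t2 : 2 * C * (C1 + C2) / Real.log y ≤ 4 * C * (C1 + C2) / e1 / L := by
        rw [div_div, div_le_div_iff₀ hlogy (by positivity)]
        have t3 := mul_le_mul_of_nonneg_left b9 (show 0 ≤ 4 * C * (C1 + C2) by positivity)
        linarith only [t3]
      have t4 : 2 * C * (C1 + C2) / Real.log y * Real.exp (-(Real.log D / Real.log y)) ≤
          4 * C * (C1 + C2) / e1 / L * Real.exp (-(e4 / (50 * e1))) :=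
        mul_le_mul t2 hexp (Real.exp_pos _).le (by positivity)
      have t5 : 4 * C * (C1 + C2) / e1 / L * Real.exp (-(e4 / (50 * e1))) =
          (4 * C * (C1 + C2) / e1 * Real.exp (-(e4 / (50 * e1)))) / L := by ring
      rw [t5] at t4
      have t6 := t4.trans (div_le_div_of_nonneg_right t1 hL0.le)
      calc _ ≤ (l : ℝ) * (ε / 2 / L) := mul_le_mul_of_nonneg_left t6 hl0
        _ = ε / 2 * l / L := by ring
    have m2 : (l : ℝ) * (1 / 2 ^ r) ≤ ε / 8 * l / L := by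
      rw [mul_one_div, div_le_div_iff₀ h2r hL0]
      have t0 : 8 * L ≤ ε * 2 ^ r := by
        refine le_trans ?_ b14
        exact mul_le_mul_of_nonneg_right (by linarith only [he4', he1, k3, hlogy]) hL0.le
      have t1 := mul_le_mul_of_nonneg_left t0 hl0
      linarith only [t1]
    have m3 : 6 * (Q0 : ℝ) ^ 2 ≤ ε / 8 * l / L := by
      rw [le_div_iff₀ hL0]
      have t1 := mul_le_mul_of_nonneg_left hle4 hε.le
      have t2 : (1 : ℝ) ≤ y := by exact_mod_cast hy1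
      have t3 : 80 * 1 * (Q0 : ℝ) ^ 2 * L ≤ 80 * y * (Q0 : ℝ) ^ 2 * L :=
        mul_le_mul_of_nonneg_right (mul_le_mul_of_nonneg_right (by linarith only [t2]) (by positivity)) hL0.le
      have t4 : 0 ≤ (Q0 : ℝ) ^ 2 * L := by positivity
      linarith only [b15, t1, t3, t4]
    have m5 : ε * l / L = ε / 2 * l / L + ε / 8 * l / L + ε / 8 * l / L + ε / 8 * l / L + ε / 8 * l / L := by ring
    have m6 : 0 ≤ ε / 8 * l / L := by positivity
    have m7 : (l : ℝ) * (kTv w y ρ + 2 * C * (C1 + C2) / Real.log y * Real.exp (-(Real.log D / Real.log y)) + 1 / 2 ^ r)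
        = kTv w y ρ * l + l * (2 * C * (C1 + C2) / Real.log y * Real.exp (-(Real.log D / Real.log y))) +
          l * (1 / 2 ^ r) := by ring
    rw [m7] at n5
    rw [m5]
    linarith only [n1, n2, n5, m1, m2, m3, m6]

private theorem SvX_lam_abs (B : ℕ) : ∃ N0 : ℕ, ∀ N : ℕ, N0 ≤ N → ∀ H i : ℕ, 1 ≤ i → (N : ℝ) ^ (1 / 50 : ℝ) ≤ H →
    ∑ m ∈ Ico (i * H) ((i + 1) * H), |lamR ⌊Real.log N ^ B⌋₊ m| ≤ H * Real.log N := by
  obtain ⟨N1, h1⟩ := Pool.Agent.H43.TP.lamR_blk B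
  obtain ⟨N2, h2⟩ := Pool.Agent.H76.GB.log_pow_le (1 / 50) 1 (by norm_num) (by norm_num) (2 * B)
  refine ⟨max N1 N2, fun N hN H i hi hH => ?_⟩
  have h3 := h1 N ((le_max_left _ _).trans hN) H i hi (by
    have := h2 N ((le_max_right _ _).trans hN)
    rw [one_mul] at this
    exact this.trans hH)
  have hL : 0 ≤ Real.log N := Real.log_natCast_nonneg N
  have h4 := sum_mul_sq_le_sq_mul_sq (Ico (i * H) ((i + 1) * H)) (fun _ => (1 : ℝ))
    (fun m => |lamR ⌊Real.log N ^ B⌋₊ m|)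
  have h5 : ∑ m ∈ Ico (i * H) ((i + 1) * H), (1 : ℝ) ^ 2 = H := by
    rw [one_pow, sum_const, Nat.card_Ico, nsmul_eq_mul, mul_one, Nat.add_mul, one_mul, Nat.add_sub_cancel_left]
  have h6 : ∑ m ∈ Ico (i * H) ((i + 1) * H), |lamR ⌊Real.log N ^ B⌋₊ m| ^ 2 ≤ H * Real.log N ^ 2 := by
    refine le_trans (le_of_eq ?_) h3
    exact sum_congr rfl fun m _ => sq_abs _
  simp only [one_mul] at h4
  rw [h5] at h4
  have h7 : (∑ m ∈ Ico (i * H) ((i + 1) * H), |lamR ⌊Real.log N ^ B⌋₊ m|) ^ 2 ≤ (H * Real.log N) ^ 2 := by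
    refine h4.trans ((mul_le_mul_of_nonneg_left h6 (Nat.cast_nonneg H)).trans (le_of_eq ?_))
    ring
  exact (abs_le_of_sq_le_sq' h7 (by positivity)).2

/-- the block sums at `α = 0` -/
private theorem SvX_blk {G : ℕ → ℝ} {k E : ℝ} {R H i : ℕ} (hR : 1 ≤ R) (hk : |k| ≤ 1)
    (hB : ‖Bs (fun m => G m - k * lamR R m) H i 0‖ ≤ E) :
    |∑ m ∈ Ico (i * H) ((i + 1) * H), G m - k * H| ≤ (R : ℝ) ^ 3 + E := by
  have h1 : Bs (fun m => G m - k * lamR R m) H i 0 =
      ((∑ m ∈ Ico (i * H) ((i + 1) * H), (G m - k * lamR R m) : ℝ) : ℂ) := by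
    unfold Pool.Agent.H53.MID.Bs
    rw [Complex.ofReal_sum]
    refine sum_congr rfl fun m _ => ?_
    have : ee (-((m : ℝ) * 0)) = 1 := by
      unfold Pool.Agent.H91.PK.ee
      simp
    rw [this, mul_one]
  rw [h1, Complex.norm_real, Real.norm_eq_abs, sum_sub_distrib, ← mul_sum] at hB
  have h2 := lam_mean (i * H) ((i + 1) * H) R (Nat.mul_le_mul_right H (Nat.le_succ i)) hR
  have h3 : (((i + 1) * H : ℕ) : ℝ) - ((i * H : ℕ) : ℝ) = H := by
    push_cast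
    ring
  rw [h3] at h2
  have h4 : |k * (∑ m ∈ Ico (i * H) ((i + 1) * H), lamR R m - H)| ≤ (R : ℝ) ^ 3 := by
    rw [abs_mul]
    calc |k| * |∑ m ∈ Ico (i * H) ((i + 1) * H), lamR R m - H| ≤ 1 * (R : ℝ) ^ 3 :=
          mul_le_mul hk h2 (abs_nonneg _) zero_le_one
      _ = _ := one_mul _
  have h5 : ∑ m ∈ Ico (i * H) ((i + 1) * H), G m - k * H =
      (∑ m ∈ Ico (i * H) ((i + 1) * H), G m - k * ∑ m ∈ Ico (i * H) ((i + 1) * H), lamR R m) +
      k * (∑ m ∈ Ico (i * H) ((i + 1) * H), lamR R m - H) := by ring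
  rw [h5]
  refine (abs_add_le _ _).trans ?_
  linarith only [hB, h4]

/-- sum over consecutive blocks -/
private theorem SvX_blks {G : ℕ → ℝ} {k E : ℝ} {h i0 : ℕ} (hi0 : 1 ≤ i0)
    (hb : ∀ i, 1 ≤ i → |∑ m ∈ Ico (i * h) ((i + 1) * h), G m - k * h| ≤ E) (n : ℕ) :
    |∑ m ∈ Ico (i0 * h) ((i0 + n) * h), G m - k * (n * h)| ≤ n * E := by
  induction n with
  | zero => simp
  | succ n ih =>
    have h1 : ∑ m ∈ Ico (i0 * h) ((i0 + (n + 1)) * h), G m =
        ∑ m ∈ Ico (i0 * h) ((i0 + n) * h), G m + ∑ m ∈ Ico ((i0 + n) * h) ((i0 + n + 1) * h), G m := by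
      rw [sum_Ico_consecutive _ (Nat.mul_le_mul_right h (by omega)) (Nat.mul_le_mul_right h (by omega))]
      rfl
    have h2 := hb (i0 + n) (by omega)
    rw [h1]
    push_cast
    have h3 : ∑ m ∈ Ico (i0 * h) ((i0 + n) * h), G m + ∑ m ∈ Ico ((i0 + n) * h) ((i0 + n + 1) * h), G m -
        k * (((n : ℝ) + 1) * h) = (∑ m ∈ Ico (i0 * h) ((i0 + n) * h), G m - k * (n * h)) +
        (∑ m ∈ Ico ((i0 + n) * h) ((i0 + n + 1) * h), G m - k * h) := by ring
    rw [h3]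
    refine (abs_add_le _ _).trans ?_
    linarith only [ih, h2]

private theorem SvX_rg (y k : ℕ) : 0 ≤ rg y k ∧ rg y k ≤ 1 := by
  unfold Pool.Agent.H76.TP.rg
  split_ifs <;> norm_num

/-- the covering of `(x, x + l]` by blocks -/
private theorem SvX_cov {y h x l : ℕ} (hh : 1 ≤ h) (hl : 2 * h ≤ l) :
    ∃ i0 n : ℕ, 1 ≤ i0 ∧ (n : ℝ) * h ≤ l ∧ (l : ℝ) - 2 * h ≤ n * h ∧
      (∀ m ∈ Ico (i0 * h) ((i0 + n) * h), 1 ≤ m) ∧
      ∑ m ∈ Ico (i0 * h) ((i0 + n) * h), rg y m ≤ ∑ m ∈ Ioc x (x + l), rg y m ∧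
      ∑ m ∈ Ioc x (x + l), rg y m ≤ ∑ m ∈ Ico (i0 * h) ((i0 + n) * h), rg y m + 2 * h := by
  have a1 : x / h * h ≤ x := Nat.div_mul_le_self x h
  have a2 : x < x / h * h + h := by
    have := Nat.lt_div_mul_add hh (a := x)
    exact this
  have b1 : (x + l + 1) / h * h ≤ x + l + 1 := Nat.div_mul_le_self _ h
  have b2 : x + l + 1 < (x + l + 1) / h * h + h := Nat.lt_div_mul_add hh (a := x + l + 1)
  set q := x / h with hq
  set q' := (x + l + 1) / h with hq'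
  have c1 : (q + 1) * h = q * h + h := by ring
  have c2 : q + 1 ≤ q' := by
    by_contra hc
    have h3 : q' ≤ q := by omega
    have h4 : q' * h ≤ q * h := Nat.mul_le_mul_right h h3
    omega
  obtain ⟨n, hn⟩ := Nat.exists_eq_add_of_le c2
  rw [hn] at b1 b2
  have c4 : n * h + (q + 1) * h = (q + 1 + n) * h := by ring
  have d0 : Ioc x (x + l) = Ico (x + 1) (x + l + 1) := by
    ext m
    rw [mem_Ioc, mem_Ico]
    omega
  have d1 := sum_Ico_consecutive (rg y) (show x + 1 ≤ (q + 1) * h by omega)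
    (show (q + 1) * h ≤ (q + 1 + n) * h from Nat.mul_le_mul_right h (by omega))
  have d2 := sum_Ico_consecutive (rg y) (show x + 1 ≤ (q + 1 + n) * h by omega)
    (show (q + 1 + n) * h ≤ x + l + 1 by omega)
  have hs : ∀ a b : ℕ, a ≤ b → 0 ≤ ∑ m ∈ Ico a b, rg y m ∧ ∑ m ∈ Ico a b, rg y m ≤ (b : ℝ) - a := by
    intro a b hab
    refine ⟨sum_nonneg fun m _ => (SvX_rg y m).1, ?_⟩
    refine (sum_le_sum fun m _ => (SvX_rg y m).2).trans (le_of_eq ?_)
    rw [sum_const, Nat.card_Ico, nsmul_eq_mul, mul_one, Nat.cast_sub hab]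
  have e1 := hs (x + 1) ((q + 1) * h) (by omega)
  have e2 := hs ((q + 1 + n) * h) (x + l + 1) (by omega)
  have f1 : (((q + 1) * h : ℕ) : ℝ) ≤ x + h := by
    have : (q + 1) * h ≤ x + h := by omega
    exact_mod_cast this
  have f2 : ((x + l + 1 : ℕ) : ℝ) ≤ ((q + 1 + n) * h : ℕ) + h := by
    have : x + l + 1 ≤ (q + 1 + n) * h + h := by omega
    exact_mod_cast this
  refine ⟨q + 1, n, Nat.le_add_left 1 q, ?_, ?_, ?_, ?_, ?_⟩
  · have : n * h ≤ l := by omega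
    exact_mod_cast this
  · have h3 : l ≤ n * h + 2 * h := by omega
    have h4 : (l : ℝ) ≤ n * h + 2 * h := by exact_mod_cast h3
    linarith only [h4]
  · intro m hm
    rw [mem_Ico] at hm
    have : 1 ≤ (q + 1) * h := Nat.one_le_iff_ne_zero.2 (by positivity)
    omega
  · rw [d0, ← d2, ← d1]
    linarith only [e1, e2, e1.1, e2.1]
  · rw [d0, ← d2, ← d1]
    push_cast at e1 e2 f1 f2 ⊢
    linarith only [e1, e2, f1, f2, e1.2, e2.2]

/-- a larger level -/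
private theorem SvX_ext {Q0 Q : ℕ} {g S : ℕ → ℝ} (hQ : Q0 ≤ Q) (h : Adm Q0 g S) :
    Adm Q (fun n => if n ≤ Q0 then g n else 0) S := by
  obtain ⟨h1, h2, h3⟩ := h
  refine ⟨fun n hn => ?_, fun n => ?_, fun m hm => ?_⟩
  · dsimp only
    rw [h1 n hn, ite_self]
  · dsimp only
    split_ifs
    · exact h2 n
    · rw [abs_zero]
      positivity
  · rw [h3 m hm]
    rw [← sum_filter, filter_filter]
    refine sum_congr ?_ fun _ _ => rfl
    ext n
    simp only [mem_filter, mem_Icc]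
    constructor
    · rintro ⟨⟨a, b⟩, c⟩
      exact ⟨⟨a, b.trans hQ⟩, c, b⟩
    · rintro ⟨⟨a, _⟩, c, b⟩
      exact ⟨⟨a, b⟩, c⟩

theorem sv_pairX (ε : ℝ) (hε : 0 < ε) (hε1 : ε ≤ 1) :
    ∃ e10 : ℝ, 0 < e10 ∧ e10 ≤ 1 / 1000 ∧ ∀ e1 : ℝ, 0 < e1 → e1 ≤ e10 → ∃ C : ℕ, ∀ A : ℕ, ∃ B0 : ℕ, ∀ B : ℕ, B0 ≤ B → ∃ N0 : ℕ,
      ∀ N : ℕ, N0 ≤ N → ∃ (S T g g' : ℕ → ℝ) (kS kT : ℝ) (Q : ℕ),
        SvI N (yN e1 N) ε S T kS kT ∧ (∀ m, 1 ≤ m → 0 ≤ S m) ∧ Adm Q g S ∧ Adm Q g' T ∧ 1 ≤ Q ∧ (Q : ℝ) ≤ (N : ℝ) ^ (1 / 1000 : ℝ) ∧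
        (∀ (H i : ℕ) (α : ℝ), (N : ℝ) ^ (1 / 50 : ℝ) ≤ H → 1 ≤ i →
          ‖Bs (fun m => S m - kS * lamR ⌊Real.log N ^ B⌋₊ m) H i α‖ ≤ H / Real.log N ^ A ∧
          ‖Bs (fun m => T m - kT * lamR ⌊Real.log N ^ B⌋₊ m) H i α‖ ≤ H / Real.log N ^ A) ∧
        (∀ u v : ℕ, 1 ≤ u → (N : ℝ) ^ (1 / 50 : ℝ) ≤ v → ∑ m ∈ Ico u (u + v), S m ^ 2 ≤ v * Real.log N ^ C) ∧
        (∀ u v : ℕ, 1 ≤ u → (N : ℝ) ^ (1 / 50 : ℝ) ≤ v → ∑ m ∈ Ico u (u + v), T m ^ 2 ≤ v * Real.log N ^ C) := by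
  obtain ⟨eS, heS, hS⟩ := SvX_bb (1 / 1000) (ε / 8) (by norm_num) (by positivity)
  obtain ⟨eT, heT, hT⟩ := SvX_low (1 / 1000) (ε / 8) (by norm_num) (by norm_num) (by positivity)
  refine ⟨min (1 / 1000) (min eS eT), lt_min (by norm_num) (lt_min heS heT), min_le_left _ _, fun e1 he1 he1'' => ?_⟩
  have he1' : e1 ≤ min eS eT := he1''.trans (min_le_right _ _)
  obtain ⟨CS, hS⟩ := hS e1 he1 (he1'.trans (min_le_left _ _))
  obtain ⟨CT, hT⟩ := hT e1 he1 (he1'.trans (min_le_right _ _))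
  refine ⟨max CS CT, fun A => ?_⟩
  obtain ⟨BS, hS⟩ := hS (A + 6)
  obtain ⟨BT, hT⟩ := hT (A + 6)
  refine ⟨max BS BT, fun B hB => ?_⟩
  obtain ⟨NS, hS⟩ := hS B ((le_max_left _ _).trans hB)
  obtain ⟨NT, hT⟩ := hT B ((le_max_right _ _).trans hB)
  obtain ⟨N1, h1⟩ := SvX_lam_abs B
  obtain ⟨N2, h2⟩ := Pool.Agent.H76.GB.log_pow_le (1 / 50) (64 / ε) (by norm_num) (by positivity) (3 * B + (A + 6))
  obtain ⟨N3, h3⟩ := Filter.eventually_atTop.1 ((Real.tendsto_log_atTop.comp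
    (tendsto_natCast_atTop_atTop (R := ℝ))).eventually_ge_atTop (8 / ε))
  refine ⟨max (max (max NS NT) (max N1 N2)) (max N3 2), fun N hN => ?_⟩
  simp only [max_le_iff] at hN
  obtain ⟨⟨⟨hNS, hNT⟩, hN1, hN2⟩, hN3, hN4⟩ := hN
  obtain ⟨S, gs, kS, QS, r1, r2, r3, s1, s2, s3, s4, s5, s6, s7⟩ := hS N hNS
  obtain ⟨T, g, kT0, Q, t1, t2, t3, t4, t5, t6, t7, t8⟩ := hT N hNT
  have p1 := h1 N hN1
  have p2 := h2 N hN2
  have p3 : 8 / ε ≤ Real.log N := h3 N hN3
  set L := Real.log (N : ℝ) with hL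
  set X := (N : ℝ) ^ (1 / 50 : ℝ) with hX
  set R := ⌊L ^ B⌋₊ with hR
  set y := yN e1 N with hy
  have hNr : (2 : ℝ) ≤ N := by exact_mod_cast hN4
  have hN0 : (0 : ℝ) < N := by linarith only [hNr]
  have hL8 : 8 ≤ L := by
    refine le_trans ?_ p3
    rw [le_div_iff₀ hε]
    linarith only [hε1]
  have hL0 : 0 < L := by linarith only [hL8]
  have hL1 : 1 ≤ L := by linarith only [hL8]
  have hX1 : 1 ≤ X := Real.one_le_rpow (by linarith only [hNr]) (by norm_num)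
  have hX0 : 0 < X := by linarith only [hX1]
  have hXe : (N : ℝ) ^ (1 / 1000 : ℝ) ≤ X := Real.rpow_le_rpow_of_exponent_le (by linarith only [hNr]) (by norm_num)
  have hLA : ∀ n : ℕ, 1 ≤ L ^ n := fun n => one_le_pow₀ hL1
  have hR1 : 1 ≤ R := Nat.le_floor (by simpa using hLA B)
  have hRL : (R : ℝ) ≤ L ^ B := Nat.floor_le (by positivity)
  have hR3 : (R : ℝ) ^ 3 ≤ L ^ (3 * B) := by
    calc (R : ℝ) ^ 3 ≤ (L ^ B) ^ 3 := pow_le_pow_left₀ (Nat.cast_nonneg R) hRL 3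
      _ = L ^ (3 * B) := by rw [← pow_mul, mul_comm]
  set h := ⌈X⌉₊ with hh
  have hhX : X ≤ h := Nat.le_ceil X
  have hh2 : (h : ℝ) ≤ 2 * X := by
    have := Nat.ceil_lt_add_one hX0.le
    linarith only [hX1, this]
  have hh1 : 1 ≤ h := Nat.one_le_ceil_iff.2 hX0
  have hh0 : (0 : ℝ) < h := by linarith only [hX1, hhX]
  have hX2 : X * X ≤ (N : ℝ) ^ (1 / 4 : ℝ) := by
    rw [hX, ← Real.rpow_add hN0]
    exact Real.rpow_le_rpow_of_exponent_le (by linarith only [hNr]) (by norm_num)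
  have hX8 : X * X ≤ N := by
    refine hX2.trans ?_
    calc (N : ℝ) ^ (1 / 4 : ℝ) ≤ (N : ℝ) ^ (1 : ℝ) := Real.rpow_le_rpow_of_exponent_le (by linarith only [hNr]) (by norm_num)
      _ = N := Real.rpow_one _
  -- `64/ε L^(3B) L^(A+6) ≤ X`
  have hXL : 64 / ε * (L ^ (3 * B) * L ^ (A + 6)) ≤ X := by
    rw [← pow_add]
    exact p2
  have h64 : 64 ≤ 64 / ε := by
    rw [le_div_iff₀ hε]
    linarith only [hε1]
  have hXA : 64 / ε * L ^ (A + 6) ≤ X := by
    refine le_trans (mul_le_mul_of_nonneg_left ?_ (by positivity)) hXL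
    exact le_mul_of_one_le_left (by positivity) (hLA _)
  have hX64 : 64 ≤ X := by
    calc (64 : ℝ) ≤ 64 / ε * 1 := by linarith only [h64]
      _ ≤ 64 / ε * L ^ (A + 6) := mul_le_mul_of_nonneg_left (hLA _) (by positivity)
      _ ≤ X := hXA
  -- the error of one block
  set E : ℝ := (R : ℝ) ^ 3 + h / L ^ (A + 6) with hE
  have hE0 : 0 ≤ E := by positivity
  have hkS : |kS| ≤ 1 := by rw [abs_of_nonneg s3]; exact s4
  have hbS : ∀ i, 1 ≤ i → |∑ m ∈ Ico (i * h) ((i + 1) * h), S m - kS * h| ≤ E := fun i hi =>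
    SvX_blk hR1 hkS (s5 h i 0 (hXe.trans hhX) hi)
  have hbT : ∀ i, 1 ≤ i → |∑ m ∈ Ico (i * h) ((i + 1) * h), T m - kT0 * h| ≤ E := fun i hi =>
    SvX_blk hR1 t5 (t6 h i 0 hhX hi)
  -- `E ≤ 2 h/L^(A+6)`
  have hE2 : E ≤ 2 * (h / L ^ (A + 6)) := by
    have h4 : (R : ℝ) ^ 3 ≤ h / L ^ (A + 6) := by
      rw [le_div_iff₀ (by positivity)]
      calc (R : ℝ) ^ 3 * L ^ (A + 6) ≤ L ^ (3 * B) * L ^ (A + 6) :=
            mul_le_mul_of_nonneg_right hR3 (by positivity)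
        _ ≤ 64 / ε * (L ^ (3 * B) * L ^ (A + 6)) :=
            le_mul_of_one_le_left (by positivity) (by linarith only [h64])
        _ ≤ X := hXL
        _ ≤ h := hhX
    rw [hE]
    linarith only [h4]
  -- the covering inequality
  have hcov : ∀ x l : ℕ, 1 ≤ x → X * X ≤ l →
      kT0 * l - 3 * (l / L ^ (A + 6)) ≤ ∑ m ∈ Ioc x (x + l), rg y m ∧
      ∑ m ∈ Ioc x (x + l), rg y m ≤ kS * l + 3 * (l / L ^ (A + 6)) := by
    intro x l _ hl
    have hl0 : (0 : ℝ) < l := lt_of_lt_of_le (by positivity) hl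
    have h2h : 2 * (h : ℝ) ≤ l / L ^ (A + 6) := by
      rw [le_div_iff₀ (by positivity)]
      calc 2 * (h : ℝ) * L ^ (A + 6) ≤ 4 * X * L ^ (A + 6) :=
            mul_le_mul_of_nonneg_right (by linarith only [hh2]) (by positivity)
        _ ≤ X * (64 / ε * L ^ (A + 6)) := by
            have h5 : 4 * L ^ (A + 6) ≤ 64 / ε * L ^ (A + 6) :=
              mul_le_mul_of_nonneg_right (by linarith only [h64]) (by positivity)
            calc 4 * X * L ^ (A + 6) = X * (4 * L ^ (A + 6)) := by ring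
              _ ≤ _ := mul_le_mul_of_nonneg_left h5 hX0.le
        _ ≤ X * X := mul_le_mul_of_nonneg_left hXA hX0.le
        _ ≤ l := hl
    have h2l : 2 * h ≤ l := by
      have h5 : (l : ℝ) / L ^ (A + 6) ≤ l := div_le_self hl0.le (hLA _)
      have h6 : ((2 * h : ℕ) : ℝ) ≤ l := by
        push_cast
        linarith only [h2h, h5]
      exact_mod_cast h6
    obtain ⟨i0, n, v1, v2, v3, v4, v5, v6⟩ := SvX_cov (y := y) (x := x) hh1 h2l
    have w1 := SvX_blks v1 hbS n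
    have w2 := SvX_blks v1 hbT n
    have w3 : n * E ≤ 2 * (l / L ^ (A + 6)) := by
      calc n * E ≤ n * (2 * (h / L ^ (A + 6))) := mul_le_mul_of_nonneg_left hE2 (Nat.cast_nonneg n)
        _ = 2 * (n * h / L ^ (A + 6)) := by ring
        _ ≤ 2 * (l / L ^ (A + 6)) := by
            refine mul_le_mul_of_nonneg_left ?_ (by norm_num)
            exact div_le_div_of_nonneg_right v2 (by positivity)
    have w4 : ∑ m ∈ Ico (i0 * h) ((i0 + n) * h), T m ≤ ∑ m ∈ Ico (i0 * h) ((i0 + n) * h), rg y m :=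
      sum_le_sum fun m hm => t4 m (v4 m hm)
    have w5 : ∑ m ∈ Ico (i0 * h) ((i0 + n) * h), rg y m ≤ ∑ m ∈ Ico (i0 * h) ((i0 + n) * h), S m :=
      sum_le_sum fun m hm => s1 m (v4 m hm)
    have w6 := (abs_le.1 w1).2
    have w7 := (abs_le.1 w2).1
    have w8 : kS * (n * h) ≤ kS * l := mul_le_mul_of_nonneg_left v2 s3
    have w9 : kT0 * l - kT0 * (n * h) ≤ 2 * h := by
      have h5 : kT0 * l - kT0 * (n * h) = kT0 * (l - n * h) := by ring
      rw [h5]
      calc kT0 * (l - n * h) ≤ |kT0| * (l - n * h) :=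
            mul_le_mul_of_nonneg_right (le_abs_self _) (by linarith only [v2])
        _ ≤ 1 * (l - n * h) := mul_le_mul_of_nonneg_right t5 (by linarith only [v2])
        _ ≤ 2 * h := by linarith only [v3]
    constructor <;> linarith only [h2h, v5, w3, w4, w7, w9, v6, w5, w6, w8]
  -- `3 l/L^(A+6) ≤ ε l/L`
  have hEε : ∀ l : ℕ, 3 * ((l : ℝ) / L ^ (A + 6)) ≤ ε * l / L := by
    intro l
    have h5 : 3 / L ^ (A + 6) ≤ ε / L := by
      rw [div_le_div_iff₀ (by positivity) hL0]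
      have h6 : L ^ (A + 6) = L ^ (A + 4) * L * L := by ring
      have h7 : 8 ≤ ε * L := by
        rw [div_le_iff₀ hε] at p3
        linarith only [p3]
      calc 3 * L ≤ 8 * L := by linarith only [hL8]
        _ ≤ (ε * L) * L := mul_le_mul_of_nonneg_right h7 hL0.le
        _ ≤ L ^ (A + 4) * (ε * L * L) := le_mul_of_one_le_left (by positivity) (hLA _)
        _ = ε * L ^ (A + 6) := by rw [h6]; ring
    calc 3 * ((l : ℝ) / L ^ (A + 6)) = 3 / L ^ (A + 6) * l := by ring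
      _ ≤ ε / L * l := mul_le_mul_of_nonneg_right h5 (Nat.cast_nonneg l)
      _ = _ := by ring
  have hε8 : ∀ l : ℕ, ε / 8 * l / L ≤ ε * l / L := by
    intro l
    refine div_le_div_of_nonneg_right ?_ hL0.le
    refine mul_le_mul_of_nonneg_right (by linarith only [hε]) (Nat.cast_nonneg l)
  have hXl : ∀ l : ℕ, X * X ≤ l → X ≤ l := by
    intro l hl
    calc X = 1 * X := (one_mul X).symm
      _ ≤ X * X := mul_le_mul_of_nonneg_right hX1 hX0.le
      _ ≤ l := hl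
  have hsv : ∀ x l : ℕ, 1 ≤ x → X * X ≤ l →
      |kS * l - ∑ m ∈ Ioc x (x + l), rg y m| ≤ ε * l / L ∧
      |kT0 * l - ∑ m ∈ Ioc x (x + l), rg y m| ≤ ε * l / L := by
    intro x l hx hl
    obtain ⟨q1, q2⟩ := hcov x l hx hl
    have q3 := s7 x l (hXe.trans (hXl l hl))
    have q4 := t8 x l (hXl l hl)
    have q5 := hEε l
    have q6 := hε8 l
    constructor <;> rw [abs_le] <;> constructor <;> linarith only [q2, q5, q3, q6, q4, q1]
  -- the comparison of `kT0` and `kS`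
  have hk : kT0 - kS ≤ 6 / L ^ (A + 6) := by
    obtain ⟨q1, q2⟩ := hcov 1 N le_rfl hX8
    have q3 : (kT0 - kS) * N ≤ 6 / L ^ (A + 6) * N := by
      have : 6 / L ^ (A + 6) * N = 6 * ((N : ℝ) / L ^ (A + 6)) := by ring
      rw [this]
      linarith only [q1, q2]
    exact le_of_mul_le_mul_right q3 hN0
  have hApow : ∀ H : ℝ, 0 ≤ H → H / L ^ (A + 6) ≤ H / L ^ A := fun H hH =>
    div_le_div_of_nonneg_left hH (by positivity) (pow_le_pow_right₀ hL1 (by omega))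
  have hC : ∀ (C : ℕ) (w : ℝ), 0 ≤ w → C ≤ max CS CT → w * L ^ C ≤ w * L ^ (max CS CT) := fun C w hw hC =>
    mul_le_mul_of_nonneg_left (pow_le_pow_right₀ hL1 hC) hw
  refine ⟨S, T, fun n => if n ≤ QS then gs n else 0, fun n => if n ≤ Q then g n else 0, kS, min kT0 kS, max QS Q,
    ⟨fun m hm => ⟨t4 m hm, s1 m hm⟩, hkS, ?_, min_le_right _ _, ?_⟩, fun m _ => s2 m,
    SvX_ext (le_max_left _ _) r1, SvX_ext (le_max_right _ _) t1, r2.trans (le_max_left _ _), ?_, ?_, ?_, ?_⟩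
  · rcases min_choice kT0 kS with h5 | h5 <;> rw [h5]
    · exact t5
    · exact hkS
  · intro x l hx _ hl
    have q := hsv x l hx (hX2.trans hl)
    refine ⟨q.1, ?_⟩
    rcases min_choice kT0 kS with h5 | h5 <;> rw [h5]
    · exact q.2
    · exact q.1
  · rcases max_choice QS Q with h5 | h5 <;> rw [h5]
    · exact r3
    · exact t3
  · intro H i α hH hi
    have hH0 : (0 : ℝ) ≤ H := Nat.cast_nonneg H
    refine ⟨(s5 H i α (hXe.trans hH) hi).trans (hApow H hH0), ?_⟩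
    have q1 := t6 H i α hH hi
    rcases le_total kT0 kS with h5 | h5
    · rw [min_eq_left h5]
      exact q1.trans (hApow H hH0)
    · rw [min_eq_right h5]
      have q2 : Bs (fun m => T m - kS * lamR R m) H i α = Bs (fun m => T m - kT0 * lamR R m) H i α +
          ((kT0 - kS : ℝ) : ℂ) * Bs (fun m => lamR R m) H i α := by
        unfold Pool.Agent.H53.MID.Bs
        rw [mul_sum, ← sum_add_distrib]
        refine sum_congr rfl fun m _ => ?_
        push_cast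
        ring
      have hee : ∀ t : ℝ, ‖ee t‖ = 1 := by
        intro t
        unfold Pool.Agent.H91.PK.ee
        have e : 2 * Real.pi * (t : ℂ) * Complex.I = ((2 * Real.pi * t : ℝ) : ℂ) * Complex.I := by
          push_cast
          ring
        rw [e, Complex.norm_exp_ofReal_mul_I]
      have q3 : ‖Bs (fun m => lamR R m) H i α‖ ≤ H * L := by
        refine le_trans ?_ (p1 H i hi hH)
        unfold Pool.Agent.H53.MID.Bs
        refine (norm_sum_le _ _).trans (sum_le_sum fun m _ => ?_)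
        rw [norm_mul, hee, mul_one, Complex.norm_real, Real.norm_eq_abs]
      have q4 : ‖((kT0 - kS : ℝ) : ℂ)‖ ≤ 6 / L ^ (A + 6) := by
        rw [Complex.norm_real, Real.norm_eq_abs, abs_of_nonneg (by linarith only [h5])]
        exact hk
      rw [q2]
      refine (norm_add_le _ _).trans ?_
      rw [norm_mul]
      have q5 : ‖((kT0 - kS : ℝ) : ℂ)‖ * ‖Bs (fun m => lamR R m) H i α‖ ≤ 6 / L ^ (A + 6) * (H * L) :=
        mul_le_mul q4 q3 (norm_nonneg _) (by positivity)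
      have q6 : H / L ^ (A + 6) + 6 / L ^ (A + 6) * (H * L) ≤ H / L ^ A := by
        have h6 : H / L ^ (A + 6) + 6 / L ^ (A + 6) * (H * L) = H * (1 + 6 * L) / L ^ (A + 6) := by ring
        rw [h6, div_le_div_iff₀ (by positivity) (by positivity)]
        have h7 : 1 + 6 * L ≤ L ^ 6 := by
          have h8 : L * L ≤ L ^ 6 := by
            calc L * L = L ^ 2 := by ring
              _ ≤ L ^ 6 := pow_le_pow_right₀ hL1 (by norm_num)
          nlinarith only [hL8, h8]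
        calc (H : ℝ) * (1 + 6 * L) * L ^ A ≤ H * L ^ 6 * L ^ A := by
              refine mul_le_mul_of_nonneg_right ?_ (by positivity)
              exact mul_le_mul_of_nonneg_left h7 hH0
          _ = H * L ^ (A + 6) := by ring
      linarith only [q1, q5, q6]
  · intro u w hu hw
    exact (s6 u w hu (hXe.trans hw)).trans (hC CS w (Nat.cast_nonneg w) (le_max_left _ _))
  · intro u w hu hw
    exact (t7 u w hu hw).trans (hC CT w (Nat.cast_nonneg w) (le_max_right _ _))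

end Pool.Agent.H43.PX
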